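import Mathlib

set_option autoImplicit false

/-!
# MP_39d092_co: nonlinearity and sign sums
-/

namespace Pool.MP_39d092_co.PB
open Finset

/-- the Hamming distance between the component `v ∘ F` and the affine function `u x + c` -/
def dst {A B : Type} [AddCommGroup A] [Fintype A] [AddCommGroup B] (F : A → B)
    (v : B →+ ZMod 2) (u : A →+ ZMod 2) (c : ZMod 2) : ℕ :=
  (univ.filter (fun x => v (F x) ≠ u x + c)).card

/-- the nonlinearity of `F` -/
noncomputable def nl {A B : Type} [AddCommGroup A] [Fintype A] [AddCommGroup B]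
    (F : A → B) : ℕ :=
  sInf {N | ∃ v : B →+ ZMod 2, v ≠ 0 ∧ ∃ (u : A →+ ZMod 2) (c : ZMod 2), dst F v u c = N}

/-- the sign of an element of `ZMod 2` -/
def sg (a : ZMod 2) : ℝ := if a = 0 then 1 else -1

lemma zm (a : ZMod 2) : a = 0 ∨ a = 1 := by revert a; decide
lemma sg_zero : sg 0 = 1 := by simp [sg]
lemma sg_one : sg 1 = -1 := by simp [sg]
lemma sg_add (a b : ZMod 2) : sg (a + b) = sg a * sg b := by
  rcases zm a with rfl | rfl <;> rcases zm b with rfl | rfl <;>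
    simp [sg, show (1 : ZMod 2) + 1 = 0 by decide]
lemma sg_sq (a : ZMod 2) : sg a * sg a = 1 := by unfold sg; split_ifs <;> norm_num
lemma sg_abs (a : ZMod 2) : |sg a| = 1 := by unfold sg; split_ifs <;> norm_num

section
variable {A B : Type} [AddCommGroup A] [Fintype A] [AddCommGroup B]

lemma two_dst (F : A → B) (v : B →+ ZMod 2) (u : A →+ ZMod 2) (c : ZMod 2) :
    2 * (dst F v u c : ℝ) = Fintype.card A - sg c * ∑ x, sg (v (F x) + u x) := by
  unfold dst
  rw [Finset.card_filter, Finset.mul_sum]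
  have h1 : (Fintype.card A : ℝ) = ∑ _x : A, (1 : ℝ) := by simp
  rw [h1]
  push_cast
  rw [Finset.mul_sum, ← Finset.sum_sub_distrib]
  refine Finset.sum_congr rfl fun x _ => ?_
  generalize v (F x) = p
  generalize u x = q
  rcases zm p with rfl | rfl <;> rcases zm q with rfl | rfl <;> rcases zm c with rfl | rfl <;>
    simp [sg, show (1 : ZMod 2) + 1 = 0 by decide] <;> norm_num

lemma nl_le (F : A → B) {v : B →+ ZMod 2} (hv : v ≠ 0) (u : A →+ ZMod 2) (c : ZMod 2) :
    nl F ≤ dst F v u c := Nat.sInf_le ⟨v, hv, u, c, rfl⟩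

lemma exists_nl (F : A → B) (h : ∃ v : B →+ ZMod 2, v ≠ 0) :
    ∃ v : B →+ ZMod 2, v ≠ 0 ∧ ∃ (u : A →+ ZMod 2) (c : ZMod 2), dst F v u c = nl F := by
  obtain ⟨v, hv⟩ := h
  exact Nat.sInf_mem (s := {N | ∃ v : B →+ ZMod 2, v ≠ 0 ∧ ∃ (u : A →+ ZMod 2) (c : ZMod 2),
    dst F v u c = N}) ⟨_, v, hv, 0, 0, rfl⟩

/-- every large sign sum bounds the nonlinearity -/
lemma nl_le_abs (F : A → B) {v : B →+ ZMod 2} (hv : v ≠ 0) (u : A →+ ZMod 2) :
    2 * (nl F : ℝ) ≤ Fintype.card A - |∑ x, sg (v (F x) + u x)| := by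
  rcases le_total 0 (∑ x, sg (v (F x) + u x)) with h | h
  · have h1 := two_dst F v u 0
    have h2 : (nl F : ℝ) ≤ dst F v u 0 := by exact_mod_cast nl_le F hv u 0
    rw [abs_of_nonneg h]
    rw [sg_zero, one_mul] at h1
    linarith
  · have h1 := two_dst F v u 1
    have h2 : (nl F : ℝ) ≤ dst F v u 1 := by exact_mod_cast nl_le F hv u 1
    rw [abs_of_nonpos h]
    rw [sg_one] at h1
    linarith

lemma abs_le (F : A → B) {v : B →+ ZMod 2} (hv : v ≠ 0) (u : A →+ ZMod 2) :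
    |∑ x, sg (v (F x) + u x)| ≤ Fintype.card A - 2 * (nl F : ℝ) := by
  linarith [nl_le_abs F hv u]

lemma sum_sg_eq_zero {u : A →+ ZMod 2} (hu : u ≠ 0) : ∑ x, sg (u x) = 0 := by
  obtain ⟨x0, hx0⟩ : ∃ x, u x ≠ 0 := by
    by_contra hcon
    push Not at hcon
    exact hu (AddMonoidHom.ext hcon)
  have h1 : u x0 = 1 := (zm _).resolve_left hx0
  have h2 : ∑ x, sg (u (x + x0)) = ∑ x, sg (u x) :=
    Equiv.sum_comp (Equiv.addRight x0) (fun x => sg (u x))
  have h3 : ∑ x, sg (u (x + x0)) = - ∑ x, sg (u x) := by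
    rw [← Finset.sum_neg_distrib]
    refine Finset.sum_congr rfl fun x _ => ?_
    rw [map_add, h1, sg_add, sg_one]
    ring
  linarith

end

end Pool.MP_39d092_co.PB
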