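import Pool.Agent.Work.MP_39d092_co.PB.Main

set_option autoImplicit false

/-!
# MP_39d092_co: the nonlinearity near a power function, final form
-/

namespace Pool.MP_39d092_co.PB
open Finset

section
variable {K : Type} [Field K] [Fintype K]

/-- power maps with exponent coprime to the group order are injective -/
lemma pow_inj {n d : ℕ} (hK : Fintype.card K = 2 ^ n) (hd : 0 < d)
    (hcop : Nat.Coprime d (2 ^ n - 1)) : Function.Injective (fun x : K => x ^ d) := by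
  intro x y hxy
  simp only at hxy
  by_cases hy : y = 0
  · rw [hy, zero_pow hd.ne'] at hxy
    rw [hy]
    exact pow_eq_zero_iff hd.ne' |>.mp hxy
  · have hx : x ≠ 0 := by
      intro hx
      rw [hx, zero_pow hd.ne'] at hxy
      exact hy (pow_eq_zero_iff hd.ne' |>.mp hxy.symm)
    have h1 : (x / y) ^ d = 1 := by
      rw [div_pow, hxy, div_self (pow_ne_zero _ hy)]
    have h2 : (x / y) ^ (2 ^ n - 1) = 1 := by
      rw [← hK]
      exact FiniteField.pow_card_sub_one_eq_one _ (div_ne_zero hx hy)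
    have h3 := pow_gcd_eq_one.mpr ⟨h1, h2⟩
    rw [hcop, pow_one] at h3
    exact (div_eq_one_iff_eq hy).mp h3

/-- for power permutations the nonlinearity is attained at some `u ≠ 0` -/
lemma attained {n d : ℕ} (hn : 0 < n) (hK : Fintype.card K = 2 ^ n) (hd : 0 < d)
    (hcop : Nat.Coprime d (2 ^ n - 1)) :
    ∃ v : K →+ ZMod 2, v ≠ 0 ∧ ∃ (u : K →+ ZMod 2) (c : ZMod 2), (u ≠ 0 ∨ c = 0) ∧
      dst (fun x : K => x ^ d) v u c = nl (fun x : K => x ^ d) := by
  classical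
  obtain ⟨T, hT⟩ := exists_functional hn hK
  obtain ⟨v, hv, u, c, hc⟩ := exists_nl (fun x : K => x ^ d) ⟨T, hT⟩
  by_cases hu : u = 0
  · exfalso
    have h1 : ∑ x : K, sg (v (x ^ d) + u x) = 0 := by
      rw [hu]
      simp only [AddMonoidHom.zero_apply, add_zero]
      have := (Finite.injective_iff_bijective.mp (pow_inj hK hd hcop)).sum_comp
        (fun y => sg (v y))
      rw [this]
      exact sum_sg_eq_zero hv
    have h2 := two_dst (fun x : K => x ^ d) v u c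
    rw [hc, h1, mul_zero, sub_zero] at h2
    -- all coefficients vanish
    have h3 : ∀ u' : K →+ ZMod 2, ∑ x : K, sg (v (x ^ d) + u' x) = 0 := by
      intro u'
      have h4 := nl_le_abs (fun x : K => x ^ d) hv u'
      have h5 := abs_nonneg (∑ x : K, sg (v (x ^ d) + u' x))
      exact abs_eq_zero.mp (by linarith)
    have h4 : ∑ a : K, ∑ x : K, sg (v (x ^ d) + mulF T a x) = 0 :=
      Finset.sum_eq_zero fun a _ => h3 _
    rw [Finset.sum_comm] at h4
    have h5 : ∀ x : K, ∑ a : K, sg (v (x ^ d) + mulF T a x)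
        = if x = 0 then (Fintype.card K : ℝ) else 0 := by
      intro x
      have h6 : ∀ a : K, sg (v (x ^ d) + mulF T a x) = sg (v (x ^ d)) * sg (mulF T x a) := by
        intro a
        rw [sg_add, mulF_apply, mulF_apply, mul_comm a x]
      rw [Finset.sum_congr rfl fun a _ => h6 a, ← Finset.mul_sum]
      split_ifs with hx
      · have h7 : ∀ a : K, sg (mulF T x a) = 1 := by
          intro a; rw [mulF_apply, hx, zero_mul, map_zero, sg_zero]
        rw [Finset.sum_congr rfl fun a _ => h7 a, hx, zero_pow hd.ne', map_zero, sg_zero]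
        simp
      · rw [sum_sg_eq_zero (mulF_ne hT hx), mul_zero]
    rw [Finset.sum_congr rfl fun x _ => h5 x, Finset.sum_ite_eq' univ (0 : K)] at h4
    simp at h4
  · exact ⟨v, hv, u, c, Or.inl hu, hc⟩

end

/-- a nonzero functional on `F_2^n` -/
lemma exists_functional' {n : ℕ} (hn : 0 < n) : ∃ w : (Fin n → ZMod 2) →+ ZMod 2, w ≠ 0 := by
  refine ⟨Pi.evalAddMonoidHom (fun _ => ZMod 2) ⟨0, hn⟩, fun h => ?_⟩
  have := DFunLike.congr_fun h (fun _ => 1)
  simp at this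

/-- the final theorem -/
theorem final (n d : ℕ) (hn : 0 < n) (hd : 0 < d) (K : Type) [Field K] [Fintype K]
    (hK : Fintype.card K = 2 ^ n)
    (h : Nat.Coprime d (2 ^ n - 1) ∨ ∃ v : K →+ ZMod 2, v ≠ 0 ∧
      ∃ (u : K →+ ZMod 2) (c : ZMod 2), (u ≠ 0 ∨ c = 0) ∧
        dst (fun x : K => x ^ d) v u c = nl (fun x : K => x ^ d))
    (L : ((Fin n → ZMod 2) × (Fin n → ZMod 2)) ≃+ K × K) (a b : K)
    (F : (Fin n → ZMod 2) → (Fin n → ZMod 2)) (k δ : ℕ)
    (hk : Nat.card {x : Fin n → ZMod 2 //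
      (L (x, F x)).2 + b ≠ ((L (x, F x)).1 + a) ^ d} ≤ k)
    (hδ : δ = 1 ∨ δ = 0 ∧ ∃ x, (L (x, F x)).1 + a = 0 ∧ (L (x, F x)).2 + b = 0) :
    ((nl F : ℝ) ≤ nl (fun x : K => x ^ d) + δ / 2
      + k * (2 ^ n + 1 - 2 * nl (fun x : K => x ^ d)) / (2 ^ n - 1)) ∧
    (Even n → nl (fun x : K => x ^ d) ≤ 2 ^ (n - 1) - 2 ^ (n / 2) →
      (δ + 1) * k * (2 ^ (n / 2 + 1) + 1) < 2 ^ n - 1 →
      nl F ≤ 2 ^ (n - 1) - 2 ^ (n / 2)) := by
  have hA : Fintype.card (Fin n → ZMod 2) = 2 ^ n := by simp [ZMod.card]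
  have hatt : ∃ v : K →+ ZMod 2, v ≠ 0 ∧ ∃ (u : K →+ ZMod 2) (c : ZMod 2), (u ≠ 0 ∨ c = 0) ∧
      dst (fun x : K => x ^ d) v u c = nl (fun x : K => x ^ d) := by
    rcases h with h | h
    · exact attained hn hK hd h
    · exact h
  have h1 := main hn hK hd hatt hA (exists_functional' hn) F L a b k δ
    (hδ.imp id fun h => h.2) hk
  refine ⟨h1, fun he hN hkk => ?_⟩
  by_contra hcon
  push Not at hcon
  obtain ⟨m, hm⟩ := he
  have hn2 : n / 2 = m := by omega
  rw [hn2] at hN hkk hcon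
  have hle : 2 ^ m ≤ 2 ^ (n - 1) := Nat.pow_le_pow_right (by norm_num) (by omega)
  have e1 : (2 : ℝ) ^ n = 2 * 2 ^ (n - 1) := by
    rw [← pow_succ']; congr 1; omega
  have hN' : (nl (fun x : K => x ^ d) : ℝ) ≤ 2 ^ (n - 1) - 2 ^ m := by
    have : ((nl (fun x : K => x ^ d) : ℕ) : ℝ) ≤ ((2 ^ (n - 1) - 2 ^ m : ℕ) : ℝ) := by
      exact_mod_cast hN
    rw [Nat.cast_sub hle] at this
    push_cast at this
    exact this
  have hF : (2 : ℝ) ^ (n - 1) - 2 ^ m + 1 ≤ nl F := by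
    have : ((2 ^ (n - 1) - 2 ^ m + 1 : ℕ) : ℝ) ≤ nl F := by exact_mod_cast hcon
    push_cast [Nat.cast_sub hle] at this
    exact this
  have hkr : ((δ : ℝ) + 1) * k * (2 ^ (m + 1) + 1) < 2 ^ n - 1 := by
    have h2 : (δ + 1) * k * (2 ^ (m + 1) + 1) + 1 < 2 ^ n := by omega
    have h3 : (((δ + 1) * k * (2 ^ (m + 1) + 1) + 1 : ℕ) : ℝ) < ((2 ^ n : ℕ) : ℝ) := by
      exact_mod_cast h2
    push_cast at h3
    linarith
  have hk0 : (0 : ℝ) ≤ k := Nat.cast_nonneg k
  have hr : (0 : ℝ) < 2 ^ m := by positivity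
  have hr1 : (1 : ℝ) ≤ 2 ^ m := one_le_pow₀ (by norm_num)
  have e2 : (2 : ℝ) ^ (m + 1) = 2 * 2 ^ m := pow_succ' 2 m
  rw [e2] at hkr
  have hD : (δ : ℝ) = 1 ∨ (δ : ℝ) = 0 := by
    rcases hδ with h | h
    · left; rw [h]; norm_num
    · right; rw [h.1]; norm_num
  set r : ℝ := 2 ^ m with hrdef
  set N : ℝ := ((nl (fun x : K => x ^ d) : ℕ) : ℝ) with hNdef
  set D : ℝ := (δ : ℝ) with hDdef
  set q : ℝ := 2 ^ n with hq
  have hD0 : 0 ≤ D := by rcases hD with h | h <;> rw [h] <;> norm_num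
  have hq1 : 0 < q - 1 := by
    have : 0 ≤ (D + 1) * k * (2 * r + 1) := by positivity
    linarith
  have h2 : (nl F : ℝ) - N - D / 2 ≤ k * (q + 1 - 2 * N) / (q - 1) := by linarith
  rw [le_div_iff₀ hq1] at h2
  -- `M = q - 2 N ≥ 2 r`
  set t : ℝ := q - 2 * N - 2 * r with ht
  have ht0 : 0 ≤ t := by rw [ht, e1]; linarith
  have hqN : q + 1 - 2 * N = t + 2 * r + 1 := by rw [ht]; ring
  rw [hqN] at h2
  have h3 : (t + 2 - D) * (q - 1) ≤ 2 * (k * (t + 2 * r + 1)) := by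
    have h4 : t + 2 - D ≤ 2 * ((nl F : ℝ) - N - D / 2) := by rw [ht, e1]; linarith
    have h5 := mul_le_mul_of_nonneg_right h4 hq1.le
    linarith
  have hpos : 0 < t + 2 * r + 1 := by linarith
  have h4 : (D + 1) * k * (2 * r + 1) * (t + 2 * r + 1) < (q - 1) * (t + 2 * r + 1) :=
    mul_lt_mul_of_pos_right hkr hpos
  have h5 : (D + 1) * ((t + 2 - D) * (q - 1)) * (2 * r + 1)
      < 2 * ((q - 1) * (t + 2 * r + 1)) := by
    have h6 : (D + 1) * ((t + 2 - D) * (q - 1)) * (2 * r + 1)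
        ≤ (D + 1) * (2 * (k * (t + 2 * r + 1))) * (2 * r + 1) := by
      have : 0 ≤ 2 * r + 1 := by linarith
      have h8 : 0 ≤ D + 1 := by linarith
      exact mul_le_mul_of_nonneg_right (mul_le_mul_of_nonneg_left h3 h8) this
    have h7 : (D + 1) * (2 * (k * (t + 2 * r + 1))) * (2 * r + 1)
        = 2 * ((D + 1) * k * (2 * r + 1) * (t + 2 * r + 1)) := by ring
    linarith
  have h6 : (D + 1) * (t + 2 - D) * (2 * r + 1) < 2 * (t + 2 * r + 1) := by
    have h7 : (q - 1) * ((D + 1) * (t + 2 - D) * (2 * r + 1))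
      < (q - 1) * (2 * (t + 2 * r + 1)) := by linarith
    exact lt_of_mul_lt_mul_left h7 hq1.le
  rcases hD with h | h
  · rw [h] at h6
    nlinarith
  · rw [h] at h6
    nlinarith

end Pool.MP_39d092_co.PB
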