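import Pool.Agent.Work.MP_39d092_co.PB.Defs

set_option autoImplicit false

/-!
# MP_39d092_co: the nonlinearity near a power function
-/

namespace Pool.MP_39d092_co.PB
open Finset

section
variable {K : Type} [Field K] [Fintype K]

/-- the functional `x ↦ v (c x)` -/
noncomputable def mulF (v : K →+ ZMod 2) (c : K) : K →+ ZMod 2 := v.comp (AddMonoidHom.mulLeft c)

omit [Fintype K] in
lemma mulF_apply (v : K →+ ZMod 2) (c x : K) : mulF v c x = v (c * x) := rfl

omit [Fintype K] in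
lemma mulF_ne {v : K →+ ZMod 2} (hv : v ≠ 0) {c : K} (hc : c ≠ 0) : mulF v c ≠ 0 := by
  intro h
  apply hv
  ext x
  have := DFunLike.congr_fun h (c⁻¹ * x)
  rw [mulF_apply, ← mul_assoc, mul_inv_cancel₀ hc, one_mul] at this
  simpa using this

/-- a nonzero additive functional -/
lemma exists_functional {n : ℕ} (hn : 0 < n) (hK : Fintype.card K = 2 ^ n) :
    ∃ T : K →+ ZMod 2, T ≠ 0 := by
  have : CharP K 2 := by
    apply CharTwo.of_one_ne_zero_of_two_eq_zero one_ne_zero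
    have h : ((Fintype.card K : ℕ) : K) = 0 := FiniteField.cast_card_eq_zero K
    rw [hK] at h
    push_cast at h
    exact pow_eq_zero_iff (by omega) |>.mp h
  let _ : Algebra (ZMod 2) K := ZMod.algebra K 2
  have : Fact (Nat.Prime 2) := ⟨Nat.prime_two⟩
  have hne : Algebra.trace (ZMod 2) K ≠ 0 := Algebra.trace_ne_zero (ZMod 2) K
  refine ⟨(Algebra.trace (ZMod 2) K).toAddMonoidHom, ?_⟩
  intro h
  apply hne
  ext x
  exact DFunLike.congr_fun h x

lemma double {n : ℕ} (hn : 0 < n) (hK : Fintype.card K = 2 ^ n) (x : K) : x + x = 0 := by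
  have : CharP K 2 := by
    apply CharTwo.of_one_ne_zero_of_two_eq_zero one_ne_zero
    have h : ((Fintype.card K : ℕ) : K) = 0 := FiniteField.cast_card_eq_zero K
    rw [hK] at h
    push_cast at h
    exact pow_eq_zero_iff (by omega) |>.mp h
  exact CharTwo.add_self_eq_zero x

/-- the average of a character over the orbit -/
noncomputable def S (d : ℕ) (v u : K →+ ZMod 2) (X Y : K) : ℝ :=
  ∑ l : K, sg (v (l ^ d * Y) + u (l * X)) - 1

lemma S_zero (d : ℕ) (v u : K →+ ZMod 2) : S d v u 0 0 = Fintype.card K - 1 := by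
  unfold S
  have h : ∀ l : K, sg (v (l ^ d * 0) + u (l * 0)) = 1 := fun l => by
    rw [mul_zero, mul_zero, map_zero, map_zero, add_zero, sg_zero]
  rw [Finset.sum_congr rfl fun l _ => h l]
  simp

lemma S_abs (d : ℕ) {v : K →+ ZMod 2} (u : K →+ ZMod 2) (hv : v ≠ 0) (X : K) {Y : K}
    (hY : Y ≠ 0) {M : ℝ}
    (hM : ∀ (v u : K →+ ZMod 2), v ≠ 0 → |∑ x, sg (v (x ^ d) + u x)| ≤ M) :
    |S d v u X Y| ≤ M + 1 := by
  unfold S
  have h1 := hM (mulF v Y) (mulF u X) (mulF_ne hv hY)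
  have h2 : ∑ x, sg (mulF v Y (x ^ d) + mulF u X x)
      = ∑ l : K, sg (v (l ^ d * Y) + u (l * X)) := by
    refine Finset.sum_congr rfl fun l _ => ?_
    rw [mulF_apply, mulF_apply, mul_comm Y, mul_comm X]
  rw [h2] at h1
  rw [_root_.abs_le] at h1 ⊢
  constructor <;> linarith [h1.1, h1.2]

lemma S_axis (d : ℕ) (v : K →+ ZMod 2) {u : K →+ ZMod 2} {c : ZMod 2} (huc : u ≠ 0 ∨ c = 0)
    {X : K} (hX : X ≠ 0) : -1 ≤ sg c * S d v u X 0 := by
  have h1 : S d v u X 0 = ∑ l : K, sg (mulF u X l) - 1 := by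
    unfold S
    congr 1
    refine Finset.sum_congr rfl fun l _ => ?_
    rw [mul_zero, map_zero, zero_add, mulF_apply, mul_comm]
  by_cases hu : u = 0
  · rcases huc with h | h
    · exact absurd hu h
    · have h2 : ∀ l : K, sg (mulF u X l) = 1 := by
        intro l; rw [mulF_apply, hu, AddMonoidHom.zero_apply, sg_zero]
      rw [h1, Finset.sum_congr rfl fun l _ => h2 l, h, sg_zero]
      simp
  · rw [h1, sum_sg_eq_zero (mulF_ne hu hX), zero_sub]
    have := sg_abs c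
    have := le_abs_self (sg c)
    linarith

/-- `S` as a sum over the nonzero `l` -/
lemma S_eq [DecidableEq K] {d : ℕ} (hd : 0 < d) (v u : K →+ ZMod 2) (X Y : K) :
    S d v u X Y = ∑ l ∈ (univ : Finset K).erase 0, sg (v (l ^ d * Y) + u (l * X)) := by
  unfold S
  rw [← Finset.add_sum_erase univ _ (Finset.mem_univ (0 : K))]
  have : sg (v ((0 : K) ^ d * Y) + u (0 * X)) = 1 := by
    rw [zero_pow hd.ne', zero_mul, zero_mul, map_zero, map_zero, add_zero, sg_zero]
  rw [this]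
  ring

/-- the orbit sum over the graph of the power function -/
lemma orbit_graph [DecidableEq K] {d : ℕ} (hd : 0 < d) (v u : K →+ ZMod 2) :
    ∑ z : K, S d v u z (z ^ d) = (Fintype.card K - 1) * ∑ x, sg (v (x ^ d) + u x) := by
  have h1 : ∑ z : K, S d v u z (z ^ d)
      = ∑ l ∈ (univ : Finset K).erase 0, ∑ z : K, sg (v (l ^ d * z ^ d) + u (l * z)) := by
    rw [Finset.sum_comm]
    exact Finset.sum_congr rfl fun z _ => S_eq hd v u z (z ^ d)
  have h2 : ∀ l ∈ (univ : Finset K).erase 0,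
      ∑ z : K, sg (v (l ^ d * z ^ d) + u (l * z)) = ∑ x, sg (v (x ^ d) + u x) := by
    intro l hl
    have hl0 := Finset.ne_of_mem_erase hl
    have h3 := Equiv.sum_comp (Equiv.mulLeft₀ l hl0) (fun x => sg (v (x ^ d) + u x))
    rw [← h3]
    refine Finset.sum_congr rfl fun z _ => ?_
    simp only [Equiv.mulLeft₀_apply, mul_pow]
  rw [h1, Finset.sum_congr rfl h2, Finset.sum_const, nsmul_eq_mul,
    Finset.card_erase_of_mem (Finset.mem_univ _), Finset.card_univ,
    Nat.cast_sub Fintype.card_pos]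
  push_cast
  ring

/-- the lower bound for the orbit sum of a set near the graph -/
lemma orbit_near [DecidableEq K] {d : ℕ} (hd : 0 < d) {v u : K →+ ZMod 2} (hv : v ≠ 0)
    (c : ZMod 2) (huc : u ≠ 0 ∨ c = 0) {M : ℝ} (hM0 : 0 ≤ M)
    (hM : ∀ (v u : K →+ ZMod 2), v ≠ 0 → |∑ x, sg (v (x ^ d) + u x)| ≤ M)
    (hc : sg c * ∑ x, sg (v (x ^ d) + u x) = M)
    (Γ : Finset (K × K)) (hΓ : Γ.card = Fintype.card K) (k δ : ℕ)
    (hδ : δ = 1 ∨ (0, 0) ∈ Γ)
    (hk : (Γ.filter (fun p => p.2 ≠ p.1 ^ d)).card ≤ k) :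
    ((Fintype.card K : ℝ) - 1) * (M - δ) - 2 * k * (M + 1)
      ≤ sg c * ∑ p ∈ Γ, S d v u p.1 p.2 := by
  set P : Finset (K × K) := univ.image (fun z : K => (z, z ^ d)) with hP
  have hPc : P.card = Fintype.card K := by
    rw [hP, Finset.card_image_of_injective _ (fun x y h => congrArg Prod.fst h), Finset.card_univ]
  have hPs : ∑ p ∈ P, S d v u p.1 p.2 = (Fintype.card K - 1) * ∑ x, sg (v (x ^ d) + u x) := by
    rw [hP, Finset.sum_image (fun x _ y _ h => congrArg Prod.fst h)]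
    exact orbit_graph hd v u
  have hmem : ∀ p : K × K, p ∈ P ↔ p.2 = p.1 ^ d := by
    intro p
    rw [hP, Finset.mem_image]
    constructor
    · rintro ⟨z, _, rfl⟩; rfl
    · intro h
      exact ⟨p.1, Finset.mem_univ _, Prod.ext rfl h.symm⟩
  have hsd : Γ \ P = Γ.filter (fun p => p.2 ≠ p.1 ^ d) := by
    ext p
    rw [Finset.mem_sdiff, Finset.mem_filter, hmem]
  have hcard : (P \ Γ).card = (Γ \ P).card := by
    have h1 := Finset.card_sdiff_add_card_inter P Γ
    have h2 := Finset.card_sdiff_add_card_inter Γ P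
    rw [Finset.inter_comm Γ P] at h2
    omega
  have hk1 : ((Γ \ P).card : ℝ) ≤ k := by
    rw [hsd]; exact_mod_cast hk
  have hk2 : ((P \ Γ).card : ℝ) ≤ k := by rw [hcard]; exact hk1
  have e1 : ∑ p ∈ Γ, S d v u p.1 p.2 = ∑ p ∈ P, S d v u p.1 p.2
      + ∑ p ∈ Γ \ P, S d v u p.1 p.2 - ∑ p ∈ P \ Γ, S d v u p.1 p.2 := by
    have h1 := Finset.sum_inter_add_sum_sdiff Γ P (fun p => S d v u p.1 p.2)
    have h2 := Finset.sum_inter_add_sum_sdiff P Γ (fun p => S d v u p.1 p.2)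
    rw [Finset.inter_comm P Γ] at h2
    linarith
  have hq : (1 : ℝ) ≤ Fintype.card K := by exact_mod_cast Fintype.card_pos (α := K)
  -- the added points
  have e2 : -(k * (M + 1)) ≤ sg c * ∑ p ∈ Γ \ P, S d v u p.1 p.2 := by
    have h1 : ∀ p ∈ Γ \ P, -(M + 1) ≤ sg c * S d v u p.1 p.2 := by
      intro p hp
      by_cases hY : p.2 = 0
      · have hX : p.1 ≠ 0 := by
          intro h1
          apply (Finset.mem_sdiff.mp hp).2
          rw [hmem, h1, hY, zero_pow hd.ne']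
        rw [hY]
        linarith [S_axis d v huc hX]
      · have h2 := S_abs d u hv p.1 hY hM
        have h3 : |sg c * S d v u p.1 p.2| ≤ M + 1 := by rw [abs_mul, sg_abs, one_mul]; exact h2
        exact (_root_.abs_le.mp h3).1
    have h2 := Finset.card_nsmul_le_sum _ _ _ h1
    rw [nsmul_eq_mul] at h2
    rw [Finset.mul_sum]
    nlinarith
  -- the removed points
  have e3 : sg c * ∑ p ∈ P \ Γ, S d v u p.1 p.2 ≤ k * (M + 1) + δ * (Fintype.card K - 1) := by
    have h1 : ∀ p ∈ P \ Γ, sg c * S d v u p.1 p.2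
        ≤ (M + 1) + (if p = (0, 0) then (Fintype.card K - 1 : ℝ) else 0) := by
      intro p hp
      by_cases hp0 : p = (0, 0)
      · rw [if_pos hp0, hp0, S_zero]
        have : |sg c * ((Fintype.card K : ℝ) - 1)| = (Fintype.card K : ℝ) - 1 := by
          rw [abs_mul, sg_abs, one_mul, abs_of_nonneg (by linarith)]
        have := le_abs_self (sg c * ((Fintype.card K : ℝ) - 1))
        linarith
      · rw [if_neg hp0, add_zero]
        have hp1 : p.2 = p.1 ^ d := (hmem p).mp (Finset.mem_sdiff.mp hp).1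
        have hY : p.2 ≠ 0 := by
          intro h
          apply hp0
          rw [h] at hp1
          exact Prod.ext (pow_eq_zero_iff hd.ne' |>.mp hp1.symm) h
        have h2 := S_abs d u hv p.1 hY hM
        have h3 : |sg c * S d v u p.1 p.2| ≤ M + 1 := by rw [abs_mul, sg_abs, one_mul]; exact h2
        exact (_root_.abs_le.mp h3).2
    rw [Finset.mul_sum]
    refine (Finset.sum_le_sum h1).trans ?_
    rw [Finset.sum_add_distrib, Finset.sum_const, nsmul_eq_mul, Finset.sum_ite_eq']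
    have h4 : (if ((0, 0) : K × K) ∈ P \ Γ then (Fintype.card K - 1 : ℝ) else 0)
        ≤ δ * (Fintype.card K - 1) := by
      rcases hδ with h | h
      · rw [h]
        split_ifs <;> push_cast <;> linarith
      · rw [if_neg (fun h' => (Finset.mem_sdiff.mp h').2 h)]
        have : (0 : ℝ) ≤ δ := Nat.cast_nonneg δ
        nlinarith
    nlinarith
  have e4 : sg c * ∑ p ∈ Γ, S d v u p.1 p.2 = sg c * ∑ p ∈ P, S d v u p.1 p.2
      + sg c * ∑ p ∈ Γ \ P, S d v u p.1 p.2 - sg c * ∑ p ∈ P \ Γ, S d v u p.1 p.2 := by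
    rw [e1]; ring
  have e5 : sg c * ∑ p ∈ P, S d v u p.1 p.2 = (Fintype.card K - 1) * M := by
    rw [hPs, ← hc]; ring
  rw [e4, e5]
  linarith

/-- some point of the orbit has a large coefficient -/
lemma exists_orbit [DecidableEq K] (h1K : 1 < Fintype.card K) {d : ℕ} (hd : 0 < d)
    {v u : K →+ ZMod 2} (hv : v ≠ 0)
    (c : ZMod 2) (huc : u ≠ 0 ∨ c = 0) {M : ℝ} (hM0 : 0 ≤ M)
    (hM : ∀ (v u : K →+ ZMod 2), v ≠ 0 → |∑ x, sg (v (x ^ d) + u x)| ≤ M)
    (hc : sg c * ∑ x, sg (v (x ^ d) + u x) = M)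
    (Γ : Finset (K × K)) (hΓ : Γ.card = Fintype.card K) (k δ : ℕ)
    (hδ : δ = 1 ∨ (0, 0) ∈ Γ)
    (hk : (Γ.filter (fun p => p.2 ≠ p.1 ^ d)).card ≤ k) :
    ∃ v' u' : K →+ ZMod 2, v' ≠ 0 ∧
      ((Fintype.card K : ℝ) - 1) * (M - δ) - 2 * k * (M + 1)
        ≤ ((Fintype.card K : ℝ) - 1) * |∑ p ∈ Γ, sg (v' p.2 + u' p.1)| := by
  have h1 := orbit_near hd hv c huc hM0 hM hc Γ hΓ k δ hδ hk
  have hq : (0 : ℝ) < (Fintype.card K : ℝ) - 1 := by
    have : (1 : ℝ) < Fintype.card K := by exact_mod_cast h1K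
    linarith
  have h2 : sg c * ∑ p ∈ Γ, S d v u p.1 p.2 = ∑ l ∈ (univ : Finset K).erase 0,
      sg c * ∑ p ∈ Γ, sg (mulF v (l ^ d) p.2 + mulF u l p.1) := by
    rw [← Finset.mul_sum, Finset.sum_comm]
    congr 1
    exact Finset.sum_congr rfl fun p _ => S_eq hd v u p.1 p.2
  by_contra hcon
  push Not at hcon
  have h3 : ∀ l ∈ (univ : Finset K).erase 0,
      ((Fintype.card K : ℝ) - 1) * (sg c * ∑ p ∈ Γ, sg (mulF v (l ^ d) p.2 + mulF u l p.1))
        < ((Fintype.card K : ℝ) - 1) * (M - δ) - 2 * k * (M + 1) := by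
    intro l hl
    have hl0 := Finset.ne_of_mem_erase hl
    have h4 := hcon (mulF v (l ^ d)) (mulF u l) (mulF_ne hv (pow_ne_zero _ hl0))
    have h5 : sg c * ∑ p ∈ Γ, sg (mulF v (l ^ d) p.2 + mulF u l p.1)
        ≤ |∑ p ∈ Γ, sg (mulF v (l ^ d) p.2 + mulF u l p.1)| := by
      refine (le_abs_self _).trans ?_
      rw [abs_mul, sg_abs, one_mul]
    exact (mul_le_mul_of_nonneg_left h5 hq.le).trans_lt h4
  have hne : ((univ : Finset K).erase 0).Nonempty := ⟨1, by simp⟩
  have h6 := Finset.sum_lt_sum_of_nonempty hne h3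
  rw [← Finset.mul_sum, ← h2, Finset.sum_const, nsmul_eq_mul,
    Finset.card_erase_of_mem (Finset.mem_univ _), Finset.card_univ,
    Nat.cast_sub Fintype.card_pos, Nat.cast_one] at h6
  have h7 := lt_of_mul_lt_mul_left h6 hq.le
  linarith

omit [Fintype K] in
/-- transfer through an affine bijection -/
lemma transfer {A : Type} [AddCommGroup A] [Fintype A] {B : Type} [AddCommGroup B]
    (hB : ∃ w : B →+ ZMod 2, w ≠ 0) (F : A → B) (L : (A × B) ≃+ K × K) (a b : K)
    (v u : K →+ ZMod 2) (hv : v ≠ 0) :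
    2 * (nl F : ℝ) ≤ Fintype.card A
      - |∑ x : A, sg (v ((L (x, F x)).2 + b) + u ((L (x, F x)).1 + a))| := by
  set f : (A × B) →+ ZMod 2 :=
    (v.comp ((AddMonoidHom.snd K K).comp L.toAddMonoidHom)) +
      (u.comp ((AddMonoidHom.fst K K).comp L.toAddMonoidHom)) with hf
  have hfa : ∀ z : A × B, f z = v (L z).2 + u (L z).1 := fun z => rfl
  set v' : B →+ ZMod 2 := f.comp (AddMonoidHom.inr A B) with hv'
  set u' : A →+ ZMod 2 := f.comp (AddMonoidHom.inl A B) with hu'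
  have h1 : ∀ x y, f (x, y) = v' y + u' x := by
    intro x y
    have : ((x, y) : A × B) = (0, y) + (x, 0) := by simp
    rw [this, map_add]
    rfl
  have h2 : ∑ x : A, sg (v ((L (x, F x)).2 + b) + u ((L (x, F x)).1 + a))
      = sg (v b + u a) * ∑ x : A, sg (v' (F x) + u' x) := by
    rw [Finset.mul_sum]
    refine Finset.sum_congr rfl fun x _ => ?_
    rw [← h1, hfa, ← sg_add]
    congr 1
    rw [map_add, map_add]
    ring
  rw [h2, abs_mul, sg_abs, one_mul]
  by_cases hv0 : v' = 0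
  · have hu0 : u' ≠ 0 := by
      intro hu0
      apply hv
      ext y
      obtain ⟨z, hz⟩ := L.surjective (0, y)
      have h3 := hfa z
      rw [hz] at h3
      have h4 : f z = 0 := by
        have := h1 z.1 z.2
        rw [hv0, hu0] at this
        simpa using this
      rw [h4] at h3
      simp only [map_zero, add_zero] at h3
      rw [← h3]
      rfl
    have h3 : ∑ x : A, sg (v' (F x) + u' x) = 0 := by
      rw [hv0]
      simp only [AddMonoidHom.zero_apply, zero_add]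
      exact sum_sg_eq_zero hu0
    rw [h3, abs_zero, sub_zero]
    obtain ⟨w, hw⟩ := hB
    have h4 := nl_le_abs F hw 0
    have h5 := abs_nonneg (∑ x, sg (w (F x) + (0 : A →+ ZMod 2) x))
    linarith
  · exact nl_le_abs F hv0 u'

/-- the main inequality -/
theorem main {n : ℕ} (hn : 0 < n) (hK : Fintype.card K = 2 ^ n) {d : ℕ} (hd : 0 < d)
    (h : ∃ v : K →+ ZMod 2, v ≠ 0 ∧ ∃ (u : K →+ ZMod 2) (c : ZMod 2), (u ≠ 0 ∨ c = 0) ∧
      dst (fun x : K => x ^ d) v u c = nl (fun x : K => x ^ d))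
    {A : Type} [AddCommGroup A] [Fintype A] (hA : Fintype.card A = 2 ^ n)
    {B : Type} [AddCommGroup B]
    (hB : ∃ w : B →+ ZMod 2, w ≠ 0) (F : A → B) (L : (A × B) ≃+ K × K) (a b : K) (k δ : ℕ)
    (hδ : δ = 1 ∨ ∃ x, (L (x, F x)).1 + a = 0 ∧ (L (x, F x)).2 + b = 0)
    (hk : Nat.card {x : A // (L (x, F x)).2 + b ≠ ((L (x, F x)).1 + a) ^ d} ≤ k) :
    (nl F : ℝ) ≤ nl (fun x : K => x ^ d) + δ / 2
      + k * (2 ^ n + 1 - 2 * nl (fun x : K => x ^ d)) / (2 ^ n - 1) := by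
  classical
  obtain ⟨v, hv, u, c, huc, hc⟩ := h
  set N : ℝ := ((nl (fun x : K => x ^ d) : ℕ) : ℝ) with hN
  have hq : (Fintype.card K : ℝ) = 2 ^ n := by rw [hK]; push_cast; rfl
  have hq1 : (1 : ℝ) < 2 ^ n := one_lt_pow₀ (by norm_num) (by omega)
  have hM : ∀ (v u : K →+ ZMod 2), v ≠ 0 → |∑ x, sg (v (x ^ d) + u x)| ≤ 2 ^ n - 2 * N := by
    intro v u hv
    rw [← hq]
    exact abs_le (fun x : K => x ^ d) hv u
  have hM0 : (0 : ℝ) ≤ 2 ^ n - 2 * N := (abs_nonneg _).trans (hM v u hv)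
  have hcM : sg c * ∑ x, sg (v (x ^ d) + u x) = 2 ^ n - 2 * N := by
    have := two_dst (fun x : K => x ^ d) v u c
    rw [hc, hq] at this
    linarith
  have hinj : Function.Injective (fun x => ((L (x, F x)).1 + a, (L (x, F x)).2 + b)) := by
    intro x y hxy
    have h1 : L (x, F x) = L (y, F y) := by
      have e1 : (L (x, F x)).1 + a = (L (y, F y)).1 + a := congrArg Prod.fst hxy
      have e2 : (L (x, F x)).2 + b = (L (y, F y)).2 + b := congrArg Prod.snd hxy
      exact Prod.ext (add_right_cancel e1) (add_right_cancel e2)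
    exact congrArg Prod.fst (L.injective h1)
  set Γ : Finset (K × K) := univ.image (fun x => ((L (x, F x)).1 + a, (L (x, F x)).2 + b)) with hG
  have hΓ : Γ.card = Fintype.card K := by
    rw [hG, Finset.card_image_of_injective _ hinj, Finset.card_univ, hA, hK]
  have hkk : (Γ.filter (fun p => p.2 ≠ p.1 ^ d)).card ≤ k := by
    refine le_trans (le_of_eq ?_) hk
    rw [hG, Finset.filter_image, Finset.card_image_of_injective _ hinj, Nat.card_eq_fintype_card,
      Fintype.card_subtype]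
  have hδ' : δ = 1 ∨ ((0, 0) : K × K) ∈ Γ := by
    rcases hδ with h | ⟨x, h1, h2⟩
    · exact Or.inl h
    · refine Or.inr ?_
      rw [hG, Finset.mem_image]
      exact ⟨x, Finset.mem_univ _, Prod.ext h1 h2⟩
  obtain ⟨v', u', hv', h1⟩ := exists_orbit (by rw [hK]; exact Nat.one_lt_two_pow (by omega)) hd
    hv c huc hM0 hM hcM Γ hΓ k δ hδ' hkk
  have h2 : ∑ p ∈ Γ, sg (v' p.2 + u' p.1)
      = ∑ x : A, sg (v' ((L (x, F x)).2 + b) + u' ((L (x, F x)).1 + a)) := by
    rw [hG, Finset.sum_image (fun x _ y _ h => hinj h)]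
  rw [h2] at h1
  have h3 := transfer hB F L a b v' u' hv'
  rw [hA] at h3
  push_cast at h3
  rw [hq] at h1
  have h4 : (0 : ℝ) < 2 ^ n - 1 := by linarith
  have h5 : 2 * (nl F : ℝ) * (2 ^ n - 1) ≤ (2 * N + δ) * (2 ^ n - 1)
      + 2 * (k * (2 ^ n + 1 - 2 * N)) := by
    nlinarith
  rw [add_assoc, ← sub_le_iff_le_add', ← sub_le_iff_le_add', le_div_iff₀ h4]
  linarith

end

end Pool.MP_39d092_co.PB
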